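import Pool.Agent.L0h7.RG.Stm

/-! # RG, module ECB: the Euler characteristic is well defined -/

set_option autoImplicit false

noncomputable section

namespace Pool.Agent.L0h91.RG

open Pool.Agent.Y75.NK Pool.Agent.L0h7.RG

section
variable {A : Type} [Ring A]

/-- Schanuel's lemma -/
def schanuel {P P' M : Type} [AddCommGroup P] [Module A P] [AddCommGroup P'] [Module A P']
    [AddCommGroup M] [Module A M] (π : P →ₗ[A] M) (π' : P' →ₗ[A] M) (σ : P' →ₗ[A] P)
    (τ : P →ₗ[A] P') (hσ : ∀ y, π (σ y) = π' y) (hτ : ∀ x, π' (τ x) = π x) :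
    (LinearMap.ker π × P') ≃ₗ[A] (LinearMap.ker π' × P) where
  toFun p := (⟨p.2 - τ (p.1.1 + σ p.2), by
    rw [LinearMap.mem_ker, map_sub, hτ, map_add, LinearMap.mem_ker.1 p.1.2, zero_add, hσ,
      sub_self]⟩, p.1.1 + σ p.2)
  map_add' p p' := by
    refine Prod.ext (Subtype.ext ?_) ?_
    · show (p.2 + p'.2) - τ ((p.1.1 + p'.1.1) + σ (p.2 + p'.2)) =
        (p.2 - τ (p.1.1 + σ p.2)) + (p'.2 - τ (p'.1.1 + σ p'.2))
      simp only [map_add]
      abel
    · show (p.1.1 + p'.1.1) + σ (p.2 + p'.2) = (p.1.1 + σ p.2) + (p'.1.1 + σ p'.2)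
      rw [map_add]
      abel
  map_smul' a p := by
    refine Prod.ext (Subtype.ext ?_) ?_
    · show a • p.2 - τ (a • p.1.1 + σ (a • p.2)) = a • (p.2 - τ (p.1.1 + σ p.2))
      rw [map_smul, ← smul_add, map_smul, smul_sub]
    · show a • p.1.1 + σ (a • p.2) = a • (p.1.1 + σ p.2)
      rw [map_smul, smul_add]
  invFun p := (⟨p.2 - σ (p.1.1 + τ p.2), by
    rw [LinearMap.mem_ker, map_sub, hσ, map_add, LinearMap.mem_ker.1 p.1.2, zero_add, hτ,
      sub_self]⟩, p.1.1 + τ p.2)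
  left_inv p := by
    refine Prod.ext (Subtype.ext ?_) ?_
    · show (p.1.1 + σ p.2) - σ ((p.2 - τ (p.1.1 + σ p.2)) + τ (p.1.1 + σ p.2)) = p.1.1
      rw [sub_add_cancel, add_sub_cancel_right]
    · show (p.2 - τ (p.1.1 + σ p.2)) + τ (p.1.1 + σ p.2) = p.2
      rw [sub_add_cancel]
  right_inv p := by
    refine Prod.ext (Subtype.ext ?_) ?_
    · show (p.1.1 + τ p.2) - τ ((p.2 - σ (p.1.1 + τ p.2)) + σ (p.1.1 + τ p.2)) = p.1.1
      rw [sub_add_cancel, add_sub_cancel_right]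
    · show (p.2 - σ (p.1.1 + τ p.2)) + σ (p.1.1 + τ p.2) = p.2
      rw [sub_add_cancel]

/-- the module of the identity matrix is free -/
theorem w_fr (k : ℕ) : Nonempty ((Fin k → A) ≃ₗ[A] W (fr A k)) := by
  have h : W (fr A k) = ⊤ := by
    rw [eq_top_iff]
    intro v _
    refine ⟨v, ?_⟩
    show Matrix.vecMul v (1 : Matrix (Fin k) (Fin k) A) = v
    exact Matrix.vecMul_one v
  exact ⟨(Submodule.topEquiv (R := A) (M := Fin k → A)).symm.trans (LinearEquiv.ofEq _ _ h.symm)⟩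

theorem ec_eq (hE : S_ECA) : ∀ (n : ℕ) {M : Type} [AddCommGroup M] [Module A M] {c c' : K0 A},
    EC A n M c → EC A n M c' → c = c'
  | 0, _, _, _, _, _, h, h' => by
    obtain ⟨e, ⟨α⟩, rfl⟩ := h
    obtain ⟨e', ⟨β⟩, rfl⟩ := h'
    exact cls_eq (equiv_of_linearEquiv (α.symm.trans β))
  | n + 1, M, _, _, c, c', h, h' => by
    obtain ⟨k, π, c1, h1, h2, rfl⟩ := h
    obtain ⟨k', π', c1', h1', h2', rfl⟩ := h'
    obtain ⟨σ, hσ⟩ := Module.projective_lifting_property π π' h1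
    obtain ⟨τ, hτ⟩ := Module.projective_lifting_property π' π h1'
    have e := schanuel π π' σ τ (fun y => LinearMap.congr_fun hσ y)
      (fun x => LinearMap.congr_fun hτ x)
    obtain ⟨w⟩ := w_fr (A := A) k
    obtain ⟨w'⟩ := w_fr (A := A) k'
    have h3 := hE.2.2.1 A n _ _ h2 (fr A k')
    have h4 := hE.2.2.1 A n _ _ h2' (fr A k)
    have e' : (LinearMap.ker π × W (fr A k')) ≃ₗ[A] (LinearMap.ker π' × W (fr A k)) :=
      ((LinearEquiv.prodCongr (LinearEquiv.refl A (LinearMap.ker π)) w'.symm).trans e).trans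
        (LinearEquiv.prodCongr (LinearEquiv.refl A (LinearMap.ker π')) w)
    have h5 := hE.1 A n _ _ _ ⟨e'⟩ h3
    have h6 := ec_eq hE n h5 h4
    have h7 : cls (fr A k) - c1 - (cls (fr A k') - c1') =
        (c1' + cls (fr A k)) - (c1 + cls (fr A k')) := by abel
    rw [← sub_eq_zero, h7, h6, sub_self]

end

/-- **ECB** -/
theorem t_ECB (hE : S_ECA) : S_ECB := by
  intro A _ n m M _ _ c c' h h'
  have hup : ∀ (j n : ℕ) (c : K0 A), EC A n M c → EC A (n + j) M c := by
    intro j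
    induction j with
    | zero => intro n c h; exact h
    | succ j ih =>
      intro n c h
      have := hE.2.1 A (n + j) M c (ih n c h)
      exact this
  have h1 := hup m n c h
  have h2 := hup n m c' h'
  rw [add_comm m n] at h2
  exact ec_eq hE (n + m) h1 h2

end Pool.Agent.L0h91.RG
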