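import Pool.Agent.L0h7.RG.Stm

/-! # RG, module PEX: isomorphic modules, longer resolutions, extensions -/

set_option autoImplicit false

noncomputable section

namespace Pool.Agent.L0h91.RG

open Pool.Agent.Y75.NK Pool.Agent.L0h7.RG

section
variable {A : Type} [Ring A]

theorem pd_iso : ∀ (n : ℕ) {M N : Type} [AddCommGroup M] [Module A M] [AddCommGroup N]
    [Module A N], (M ≃ₗ[A] N) → PD A n M → PD A n N
  | 0, _, _, _, _, _, _, e, h => by
    obtain ⟨h1, h2⟩ := h
    exact ⟨Module.Finite.equiv e, Module.Projective.of_equiv e⟩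
  | n + 1, _, _, _, _, _, _, e, h => by
    obtain ⟨k, π, h1, h2⟩ := h
    refine ⟨k, e.toLinearMap.comp π, e.surjective.comp h1, ?_⟩
    have h3 : LinearMap.ker π = LinearMap.ker (e.toLinearMap.comp π) := by
      ext x
      rw [LinearMap.mem_ker, LinearMap.mem_ker, LinearMap.comp_apply, LinearEquiv.coe_coe,
        LinearEquiv.map_eq_zero_iff]
    exact pd_iso n (LinearEquiv.ofEq _ _ h3) h2

/-- the kernel of a surjection on a projective module is a direct summand -/
theorem pd_ker {P M : Type} [AddCommGroup P] [Module A P] [AddCommGroup M] [Module A M]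
    [Module.Finite A P] [Module.Projective A P] [Module.Projective A M] (π : P →ₗ[A] M)
    (hπ : Function.Surjective π) :
    Module.Finite A (LinearMap.ker π) ∧ Module.Projective A (LinearMap.ker π) := by
  obtain ⟨s, hs⟩ := Module.projective_lifting_property π LinearMap.id hπ
  have hs' : ∀ x, π (s x) = x := fun x => LinearMap.congr_fun hs x
  let r : P →ₗ[A] LinearMap.ker π :=
    LinearMap.codRestrict (LinearMap.ker π) (LinearMap.id - s.comp π) (by
      intro v
      rw [LinearMap.mem_ker, LinearMap.sub_apply, LinearMap.id_apply, LinearMap.comp_apply,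
        map_sub, hs', sub_self])
  have hr : r.comp (LinearMap.ker π).subtype = LinearMap.id := by
    ext x
    show ((LinearMap.id - s.comp π : P →ₗ[A] P) x.1 : P) = x.1
    rw [LinearMap.sub_apply, LinearMap.id_apply, LinearMap.comp_apply,
      LinearMap.mem_ker.1 x.2, map_zero, sub_zero]
  refine ⟨Module.Finite.of_surjective r fun x => ⟨x.1, LinearMap.congr_fun hr x⟩, ?_⟩
  exact Module.Projective.of_split (LinearMap.ker π).subtype r hr

theorem pd_succ : ∀ (n : ℕ) {M : Type} [AddCommGroup M] [Module A M], PD A n M → PD A (n + 1) M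
  | 0, M, _, _, h => by
    obtain ⟨h1, h2⟩ := h
    obtain ⟨k, π, hπ⟩ := Module.Finite.exists_fin' A M
    exact ⟨k, π, hπ, pd_ker π hπ⟩
  | n + 1, _, _, _, h => by
    obtain ⟨k, π, h1, h2⟩ := h
    exact ⟨k, π, h1, pd_succ n h2⟩

/-- `A ^ (k + l) = A ^ k × A ^ l` -/
def appE (A : Type) [Ring A] (k l : ℕ) : (Fin (k + l) → A) ≃ₗ[A] (Fin k → A) × (Fin l → A) where
  toFun v := (fun i => v (Fin.castAdd l i), fun i => v (Fin.natAdd k i))
  map_add' _ _ := rfl
  map_smul' _ _ := rfl
  invFun p := Fin.append p.1 p.2
  left_inv v := by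
    funext i
    refine Fin.addCases (fun j => ?_) (fun j => ?_) i
    · exact Fin.append_left _ _ j
    · exact Fin.append_right _ _ j
  right_inv p := by
    refine Prod.ext (funext fun j => ?_) (funext fun j => ?_)
    · exact Fin.append_left _ _ j
    · exact Fin.append_right _ _ j

/-- resolutions from a surjection of `A ^ k × A ^ l` -/
theorem pd_of_prod {n k l : ℕ} {M : Type} [AddCommGroup M] [Module A M]
    (π : (Fin k → A) × (Fin l → A) →ₗ[A] M) (hπ : Function.Surjective π)
    (h : PD A n (LinearMap.ker π)) : PD A (n + 1) M := by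
  refine ⟨k + l, π.comp (appE A k l).toLinearMap, hπ.comp (appE A k l).surjective, ?_⟩
  have e1 : LinearMap.ker (π.comp (appE A k l).toLinearMap) =
      (LinearMap.ker π).comap (appE A k l).toLinearMap := LinearMap.ker_comp _ _
  exact pd_iso n (((appE A k l).ofSubmodule' (LinearMap.ker π)).symm.trans
    (LinearEquiv.ofEq _ _ e1.symm)) h

/-- the horseshoe -/
theorem pd_ext : ∀ (n : ℕ) {M' M M'' : Type} [AddCommGroup M'] [Module A M']
    [AddCommGroup M] [Module A M] [AddCommGroup M''] [Module A M''] (f : M' →ₗ[A] M)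
    (g : M →ₗ[A] M''), Function.Injective f → Function.Surjective g →
    LinearMap.range f = LinearMap.ker g → PD A n M' → PD A n M'' → PD A n M
  | 0, M', M, M'', _, _, _, _, _, _, f, g, hf, hg, hfg, h', h'' => by
    obtain ⟨h1, h2⟩ := h'
    obtain ⟨h3, h4⟩ := h''
    obtain ⟨s, hs⟩ := Module.projective_lifting_property g LinearMap.id hg
    have hs' : ∀ x, g (s x) = x := fun x => LinearMap.congr_fun hs x
    have hgf : ∀ x, g (f x) = 0 := fun x => by
      have : f x ∈ LinearMap.ker g := hfg ▸ LinearMap.mem_range_self f x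
      exact this
    let T : M' × M'' →ₗ[A] M := f.coprod s
    have hT : ∀ p, T p = f p.1 + s p.2 := fun p => LinearMap.coprod_apply f s p
    have hbij : Function.Bijective T := by
      constructor
      · rw [injective_iff_map_eq_zero]
        rintro ⟨x, y⟩ hxy
        rw [hT] at hxy
        have h5 := congrArg g hxy
        rw [map_add, hgf, hs', zero_add, map_zero] at h5
        have h5' : y = 0 := h5
        subst h5'
        rw [map_zero, add_zero] at hxy
        have h6 : x = 0 := hf (by rw [hxy, map_zero])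
        rw [h6]
        rfl
      · intro m
        have h5 : m - s (g m) ∈ LinearMap.range f := by
          rw [hfg, LinearMap.mem_ker, map_sub, hs', sub_self]
        obtain ⟨x, hx⟩ := h5
        refine ⟨(x, g m), ?_⟩
        rw [hT]
        show f x + s (g m) = m
        rw [hx, sub_add_cancel]
    have e := LinearEquiv.ofBijective T hbij
    exact ⟨Module.Finite.equiv e, Module.Projective.of_equiv e⟩
  | n + 1, M', M, M'', _, _, _, _, _, _, f, g, hf, hg, hfg, h', h'' => by
    obtain ⟨k, π, h1, h2⟩ := h'
    obtain ⟨l, ρ, h3, h4⟩ := h''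
    obtain ⟨φ, hφ⟩ := Module.projective_lifting_property g ρ hg
    have hφ' : ∀ x, g (φ x) = ρ x := fun x => LinearMap.congr_fun hφ x
    have hgf : ∀ x, g (f x) = 0 := fun x => by
      have : f x ∈ LinearMap.ker g := hfg ▸ LinearMap.mem_range_self f x
      exact this
    let T : (Fin k → A) × (Fin l → A) →ₗ[A] M := (f.comp π).coprod φ
    have hT : ∀ p, T p = f (π p.1) + φ p.2 := fun p => LinearMap.coprod_apply _ φ p
    have hTs : Function.Surjective T := by
      intro m
      obtain ⟨y, hy⟩ := h3 (g m)
      have h5 : m - φ y ∈ LinearMap.range f := by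
        rw [hfg, LinearMap.mem_ker, map_sub, hφ', hy, sub_self]
      obtain ⟨x', hx'⟩ := h5
      obtain ⟨x, rfl⟩ := h1 x'
      refine ⟨(x, y), ?_⟩
      rw [hT]
      show f (π x) + φ y = m
      rw [hx', sub_add_cancel]
    refine pd_of_prod T hTs ?_
    -- the kernels
    let i : LinearMap.ker π →ₗ[A] LinearMap.ker T :=
      LinearMap.codRestrict (LinearMap.ker T)
        ((LinearMap.inl A (Fin k → A) (Fin l → A)).comp (LinearMap.ker π).subtype) (by
          intro x
          rw [LinearMap.mem_ker, LinearMap.comp_apply, LinearMap.inl_apply, hT]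
          show f (π x.1) + φ 0 = 0
          rw [LinearMap.mem_ker.1 x.2, map_zero, map_zero, add_zero])
    let j : LinearMap.ker T →ₗ[A] LinearMap.ker ρ :=
      LinearMap.codRestrict (LinearMap.ker ρ)
        ((LinearMap.snd A (Fin k → A) (Fin l → A)).comp (LinearMap.ker T).subtype) (by
          intro x
          rw [LinearMap.mem_ker, LinearMap.comp_apply, LinearMap.snd_apply]
          have h5 := LinearMap.mem_ker.1 x.2
          rw [hT] at h5
          have h6 := congrArg g h5
          rw [map_add, hgf, zero_add, hφ', map_zero] at h6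
          exact h6)
    have hi : ∀ x, ((i x : LinearMap.ker T) : (Fin k → A) × (Fin l → A)) = (x.1, 0) :=
      fun x => rfl
    have hj : ∀ x, ((j x : LinearMap.ker ρ) : Fin l → A) = x.1.2 := fun x => rfl
    refine pd_ext n i j ?_ ?_ ?_ h2 h4
    · intro x y hxy
      have h5 := congrArg (fun z : LinearMap.ker T => z.1.1) hxy
      exact Subtype.ext h5
    · intro y
      have h5 : φ y.1 ∈ LinearMap.range f := by
        rw [hfg, LinearMap.mem_ker, hφ', LinearMap.mem_ker.1 y.2]
      obtain ⟨x', hx'⟩ := h5
      obtain ⟨x, hx⟩ := h1 (-x')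
      refine ⟨⟨(x, y.1), ?_⟩, rfl⟩
      rw [LinearMap.mem_ker, hT]
      show f (π x) + φ y.1 = 0
      rw [hx, map_neg, hx', neg_add_cancel]
    · ext z
      constructor
      · rintro ⟨x, rfl⟩
        rw [LinearMap.mem_ker]
        exact Subtype.ext rfl
      · intro hz
        have h5 : z.1.2 = 0 := congrArg Subtype.val (LinearMap.mem_ker.1 hz)
        have h6 := LinearMap.mem_ker.1 z.2
        rw [hT, h5, map_zero, add_zero] at h6
        have h7 : π z.1.1 = 0 := hf (by rw [h6, map_zero])
        refine ⟨⟨z.1.1, h7⟩, Subtype.ext (Prod.ext rfl h5.symm)⟩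

end

/-- **PEX** -/
theorem t_PEX : S_PEX := by
  refine ⟨?_, ?_, ?_⟩
  · intro A _ n M N _ _ _ _ ⟨e⟩ h
    exact pd_iso n e h
  · intro A _ n M _ _ h
    exact pd_succ n h
  · intro A _ n M' M M'' _ _ _ _ _ _ f g hf hg hfg h' h''
    exact pd_ext n f g hf hg hfg h' h''

end Pool.Agent.L0h91.RG
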